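import Pool.Agent.helper16.LW.Spec

/-!
# Module RF0 of project lw (MP_4467b5_nt): the majorant of `ρ_F0`.
-/

set_option autoImplicit false

open Complex MeasureTheory
open scoped ComplexOrder

namespace Pool.Agent.LW

open Pool.Agent.ZD Pool.Agent.helper84.DM Pool.Agent.helper78.ED Pool.Agent.DH

theorem RF0_cpow (n : ℕ) (hn : 1 ≤ n) (u : ℝ) :
    (n : ℂ) ^ (-((u : ℂ) * I)) = Complex.exp (-(((u * Real.log n : ℝ) : ℂ) * I)) := by
  have hn0 : (n : ℂ) ≠ 0 := by
    have : n ≠ 0 := by omega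
    exact_mod_cast this
  rw [Complex.cpow_def_of_ne_zero hn0, ← Complex.ofReal_natCast, ← Complex.ofReal_log (by positivity)]
  congr 1
  push_cast
  ring

theorem RF0_sq (N : ℕ) (a : ℕ → ℂ) (u : ℝ) :
    ((‖DP N a u‖ ^ 2 : ℝ) : ℂ) = ∑ n ∈ Finset.Ioc N (2 * N), ∑ n' ∈ Finset.Ioc N (2 * N),
      a n * (starRingEnd ℂ) (a n') *
        Complex.exp (-(((u * (Real.log n - Real.log n') : ℝ) : ℂ) * I)) := by
  have h1 : ((‖DP N a u‖ ^ 2 : ℝ) : ℂ) = DP N a u * (starRingEnd ℂ) (DP N a u) := by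
    rw [Complex.mul_conj']
    push_cast
    rfl
  rw [h1]
  unfold DP
  rw [map_sum, Finset.sum_mul_sum]
  refine Finset.sum_congr rfl fun n hn => Finset.sum_congr rfl fun n' hn' => ?_
  have h2 : 1 ≤ n := by
    have := (Finset.mem_Ioc.mp hn).1
    omega
  have h3 : 1 ≤ n' := by
    have := (Finset.mem_Ioc.mp hn').1
    omega
  rw [RF0_cpow n h2, RF0_cpow n' h3, map_mul, ← Complex.exp_conj, map_neg, map_mul,
    Complex.conj_ofReal, Complex.conj_I]
  have h4 : Complex.exp (-(((u * (Real.log n - Real.log n') : ℝ) : ℂ) * I)) =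
      Complex.exp (-(((u * Real.log n : ℝ) : ℂ) * I)) *
        Complex.exp (-(((u * Real.log n' : ℝ) : ℂ) * -I)) := by
    rw [← Complex.exp_add]
    congr 1
    push_cast
    ring
  rw [h4]
  ring

theorem RF0 (hFEJ : FEJ_stmt) : RF0_stmt := by
  intro J N a x hJ hCo
  obtain ⟨hA, -, -⟩ := hFEJ
  have key : rF J (F0 J N a) x = ∑ n ∈ Finset.Ioc N (2 * N), ∑ n' ∈ Finset.Ioc N (2 * N),
      a n * (starRingEnd ℂ) (a n') * ((Fej J (x - (Real.log n - Real.log n')) : ℝ) : ℂ) := by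
    unfold rF F0
    have h1 : ∀ j ∈ IJ J, (((wj J j * ‖DP N a (j : ℝ)‖ ^ 2 : ℝ)) : ℂ) *
        Complex.exp ((((j : ℝ) * x : ℝ) : ℂ) * I) =
        ∑ n ∈ Finset.Ioc N (2 * N), ∑ n' ∈ Finset.Ioc N (2 * N),
          a n * (starRingEnd ℂ) (a n') * (((wj J j : ℝ) : ℂ) *
            Complex.exp ((((j : ℝ) * (x - (Real.log n - Real.log n')) : ℝ) : ℂ) * I)) := by
      intro j _
      have h2 : ((wj J j * ‖DP N a (j : ℝ)‖ ^ 2 : ℝ) : ℂ) =
          ((wj J j : ℝ) : ℂ) * ((‖DP N a (j : ℝ)‖ ^ 2 : ℝ) : ℂ) := by push_cast; ring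
      rw [h2, RF0_sq, Finset.mul_sum, Finset.sum_mul]
      refine Finset.sum_congr rfl fun n _ => ?_
      rw [Finset.mul_sum, Finset.sum_mul]
      refine Finset.sum_congr rfl fun n' _ => ?_
      have h3 : Complex.exp ((((j : ℝ) * (x - (Real.log n - Real.log n')) : ℝ) : ℂ) * I) =
          Complex.exp (-((((j : ℝ) * (Real.log n - Real.log n') : ℝ) : ℂ) * I)) *
            Complex.exp ((((j : ℝ) * x : ℝ) : ℂ) * I) := by
        rw [← Complex.exp_add]
        congr 1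
        push_cast
        ring
      rw [h3]
      ring
    rw [Finset.sum_congr rfl h1, Finset.sum_comm]
    refine Finset.sum_congr rfl fun n _ => ?_
    rw [Finset.sum_comm]
    refine Finset.sum_congr rfl fun n' _ => ?_
    rw [← Finset.mul_sum, (hA J (x - (Real.log n - Real.log n')) hJ).1]
  rw [key]
  refine (norm_sum_le _ _).trans (Finset.sum_le_sum fun n hn => ?_)
  refine (norm_sum_le _ _).trans (Finset.sum_le_sum fun n' hn' => ?_)
  have h1 := hCo n hn
  have h2 := hCo n' hn'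
  have h3 := (hA J (x - (Real.log n - Real.log n')) hJ).2.1
  rw [norm_mul, norm_mul, RCLike.norm_conj, Complex.norm_real, Real.norm_of_nonneg h3]
  have h4 : ‖a n‖ * ‖a n'‖ ≤ 1 := by
    have := mul_le_mul h1 h2 (norm_nonneg _) zero_le_one
    linarith
  have := mul_le_mul_of_nonneg_right h4 h3
  linarith

end Pool.Agent.LW
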